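import Pool.Agent.V11287.NP4

open Polynomial OnePoint

namespace Pool.Agent.Results.MP_db5e86_an.NoSharing

/-- The value at `z ∈ ℂ`, on the Riemann sphere, of the rational function
`R = a (1 + P/(QP+P'))`.  (When the zeros of `P` are simple, `P` and `QP+P'` have no common zero,
so the zeros of `QP+P'` are exactly the poles of `R` in the plane.) -/
noncomputable def R (a : ℂ) (P Q : ℂ[X]) (z : ℂ) : OnePoint ℂ :=
  if (Q * P + derivative P).eval z = 0 then ∞
  else ((a * (1 + P.eval z / (Q * P + derivative P).eval z) : ℂ) : OnePoint ℂ)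

/-- The value at `z ∈ ℂ`, on the Riemann sphere, of the derivative `R'`: it is `∞` at the poles
of `R` and the complex derivative of `w ↦ a (1 + P(w)/(QP+P')(w))` at the other points. -/
noncomputable def R' (a : ℂ) (P Q : ℂ[X]) (z : ℂ) : OnePoint ℂ :=
  if (Q * P + derivative P).eval z = 0 then ∞
  else ((deriv (fun w : ℂ => a * (1 + P.eval w / (Q * P + derivative P).eval w)) z : ℂ) :
    OnePoint ℂ)

lemma deriv_formula (a : ℂ) (P Q : ℂ[X]) (z : ℂ) (hz : (Q * P + derivative P).eval z ≠ 0) :
    deriv (fun w : ℂ => a * (1 + P.eval w / (Q * P + derivative P).eval w)) z =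
      a * (1 - P.eval z * (Q * (Q * P + derivative P) + derivative (Q * P + derivative P)).eval z /
        (Q * P + derivative P).eval z ^ 2) := by
  have h1 := (((P.hasDerivAt z).div ((Q * P + derivative P).hasDerivAt z) hz).const_add 1).const_mul a
  have h2 : deriv (fun w : ℂ => a * (1 + P.eval w / (Q * P + derivative P).eval w)) z =
      a * (((derivative P).eval z * (Q * P + derivative P).eval z - P.eval z *
        (derivative (Q * P + derivative P)).eval z) / (Q * P + derivative P).eval z ^ 2) :=
    h1.deriv
  rw [h2]
  set E := Q * P + derivative P with hE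
  have h3 : (derivative P).eval z = E.eval z - Q.eval z * P.eval z := by
    rw [hE]; simp
  rw [h3]
  simp only [eval_add, eval_mul]
  field_simp
  ring

/-- The case of constant `P`: the zeros of `Q² + Q'` cannot all be zeros of `Q`. -/
lemma const_case (Q : ℂ[X]) (hQ : 0 < Q.natDegree)
    (h : ∀ z : ℂ, (Q * Q + derivative Q).eval z = 0 → Q.eval z = 0) : False := by
  have hQ0 : Q ≠ 0 := by rintro rfl; simp at hQ
  have hdlt : (derivative Q).natDegree < (Q * Q).natDegree := by
    rw [natDegree_mul hQ0 hQ0]
    have := natDegree_derivative_lt hQ.ne'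
    omega
  have hdeg : (Q * Q + derivative Q).natDegree = Q.natDegree + Q.natDegree := by
    rw [natDegree_add_eq_left_of_natDegree_lt hdlt, natDegree_mul hQ0 hQ0]
  have hT0 : Q * Q + derivative Q ≠ 0 := by
    intro h0
    rw [h0] at hdeg
    simp at hdeg
    omega
  have hQd : derivative Q ≠ 0 := by
    intro h0
    have := natDegree_eq_zero_of_derivative_eq_zero h0
    omega
  have hle : (Q * Q + derivative Q).roots ≤ Q.roots := by
    rw [Multiset.le_iff_count]
    intro z
    rw [count_roots, count_roots]
    by_contra hlt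
    push Not at hlt
    have hroot : (Q * Q + derivative Q).IsRoot z := by
      rw [← rootMultiplicity_pos hT0]; omega
    have hQroot : Q.IsRoot z := h z hroot
    have h1 : (X - C z) ^ (rootMultiplicity z Q) ∣ Q * Q + derivative Q :=
      (pow_dvd_pow _ hlt.le).trans (pow_rootMultiplicity_dvd _ z)
    have h2 : (X - C z) ^ (rootMultiplicity z Q) ∣ Q * Q :=
      (pow_rootMultiplicity_dvd _ z).trans (dvd_mul_right _ _)
    have h3 : (X - C z) ^ (rootMultiplicity z Q) ∣ derivative Q := by
      have := dvd_sub h1 h2
      simpa using this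
    have h4 := (le_rootMultiplicity_iff hQd).mpr h3
    rw [derivative_rootMultiplicity_of_root hQroot] at h4
    have := (rootMultiplicity_pos hQ0).mpr hQroot
    omega
  have hcard := Multiset.card_le_card hle
  rw [← (IsAlgClosed.splits (Q * Q + derivative Q)).natDegree_eq_card_roots, hdeg] at hcard
  have := Q.card_roots'
  omega

/-- **MP_db5e86_an, Q1 (no).**  There are no `a ≠ 0`, polynomial `P` with only simple zeros and
polynomial `Q ≢ 0` such that `R = a(1 + P/(QP+P'))` is non-constant and `R` and `R'` share `a` in
the plane. -/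
theorem result : ¬ ∃ (a : ℂ) (P Q : ℂ[X]), a ≠ 0 ∧
    (∀ z : ℂ, P.IsRoot z → ¬ (derivative P).IsRoot z) ∧ Q ≠ 0 ∧
    (¬ ∃ v : OnePoint ℂ, ∀ z : ℂ, R a P Q z = v) ∧
    (∀ z : ℂ, R a P Q z = (a : OnePoint ℂ) ↔ R' a P Q z = (a : OnePoint ℂ)) := by
  rintro ⟨a, P, Q, ha, hsimple, hQ, hnc, hshare⟩
  -- the key consequence of sharing
  have key : ∀ z : ℂ, (Q * (Q * P + derivative P) + derivative (Q * P + derivative P)).eval z = 0 →
      P.eval z = 0 ∨ (Q * P + derivative P).eval z = 0 := by
    intro z hz
    by_cases hD : (Q * P + derivative P).eval z = 0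
    · exact Or.inr hD
    · left
      have h1 : R' a P Q z = (a : OnePoint ℂ) := by
        unfold R'
        rw [if_neg hD, deriv_formula a P Q z hD, hz]
        simp
      rw [← hshare z] at h1
      unfold R at h1
      rw [if_neg hD, OnePoint.coe_eq_coe] at h1
      have h2 : P.eval z / (Q * P + derivative P).eval z = 0 := by
        have h3 : a * (P.eval z / (Q * P + derivative P).eval z) = 0 := by
          linear_combination h1
        exact (mul_eq_zero.mp h3).resolve_left ha
      exact (div_eq_zero_iff.mp h2).resolve_right hD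
  rcases Nat.eq_zero_or_pos P.natDegree with h0 | hpos
  · obtain ⟨c, rfl⟩ := natDegree_eq_zero.mp h0
    have hc : c ≠ 0 := by
      rintro rfl
      exact hsimple 0 (by simp) (by simp)
    have hQd : 0 < Q.natDegree := by
      by_contra hneg
      have hQ0 : Q.natDegree = 0 := by omega
      obtain ⟨q, rfl⟩ := natDegree_eq_zero.mp hQ0
      have hq : q ≠ 0 := by rintro rfl; simp at hQ
      apply hnc
      refine ⟨((a * (1 + c / (q * c)) : ℂ) : OnePoint ℂ), fun z => ?_⟩
      unfold R
      have : (C q * C c + derivative (C c)).eval z = q * c := by simp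
      rw [this, if_neg (mul_ne_zero hq hc)]
      simp
    apply const_case Q hQd
    intro z hz
    have h1 := key z (by
      simp only [derivative_C, add_zero, derivative_mul, mul_zero, eval_add, eval_mul, eval_C]
      simp only [eval_add, eval_mul] at hz
      linear_combination c * hz)
    rcases h1 with h1 | h1
    · simp at h1
      exact absurd h1 hc
    · simp at h1
      exact h1.resolve_right hc
  · exact Pool.Agent.V11287.NP.main hpos (fun z hz h => hsimple z hz h) hQ key

end Pool.Agent.Results.MP_db5e86_an.NoSharing
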